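import Pool.Agent.Lib.helper29.DrazinDefs

open Filter Topology
open scoped ComplexConjugate

namespace Pool.Agent.Results.MP_632fda_an.LeftFails

open Pool.Agent.Lib.H29.Drazin

noncomputable abbrev L := lp (fun _ : ℕ => ℂ) 2

section
variable {H : Type} [NormedAddCommGroup H] [InnerProductSpace ℂ H]

/-- The dimension, in `ℕ ∪ {∞}`. -/
noncomputable def dim (V : Submodule ℂ H) : ℕ∞ := Cardinal.toENat (Module.rank ℂ V)

/-- Condition (iii). -/
def CondIII (A B : H →L[ℂ] H) : Prop := ∃ δ > 0, ∀ z : ℂ, 0 < ‖z‖ → ‖z‖ < δ →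
  dim (A - z • 1).toLinearMap.rangeᗮ = dim (B - z • 1).toLinearMap.ker

variable (H) in
/-- The negated form of Q1, with both spaces equal to `H`. -/
def Counter : Prop := ∃ (A B C : H →L[ℂ] H) (a d p : ℕ), IsAsc A a ∧
  IsClosed ((A ^ (a + 1)).toLinearMap.range : Set H) ∧ IsDsc B d ∧ CondIII A B ∧
  1 ≤ p ∧ a ≤ p ∧ d ≤ p ∧ Admissible A B p C ∧ ¬ IsDrazin (mat A B C)

end

lemma bd (w : ℕ → ℂ) (f : ℕ → ℕ) (hw : ∀ n, ‖w n‖ ≤ 1) (hf : Set.InjOn f {n | w n ≠ 0}) (k : L)
    (s : Finset ℕ) : ∑ n ∈ s, ‖w n * k (f n)‖ ^ (2 : ENNReal).toReal ≤ ‖k‖ ^ (2 : ENNReal).toReal := by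
  classical
  refine le_trans ?_ (lp.sum_rpow_le_norm_rpow (by norm_num) k ((s.filter (w · ≠ 0)).image f))
  rw [Finset.sum_image (s := s.filter (w · ≠ 0)) (g := f)
    (hf.mono fun a ha => (Finset.mem_filter.1 ha).2), Finset.sum_filter]
  refine Finset.sum_le_sum fun n _ => ?_
  split_ifs with h
  · rw [norm_mul]
    exact Real.rpow_le_rpow (by positivity) (mul_le_of_le_one_left (norm_nonneg _) (hw n))
      (by norm_num)
  · simp [not_not.1 h]

noncomputable def wc (w : ℕ → ℂ) (f : ℕ → ℕ) (hw : ∀ n, ‖w n‖ ≤ 1)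
    (hf : Set.InjOn f {n | w n ≠ 0}) : L →L[ℂ] L :=
  LinearMap.mkContinuous
    { toFun := fun k => ⟨fun n => w n * k (f n), memℓp_gen' (bd w f hw hf k)⟩
      map_add' := fun a b => by ext n; simp [mul_add]
      map_smul' := fun c a => by ext n; simp [mul_left_comm] } 1 fun k => by
    rw [one_mul]
    exact lp.norm_le_of_forall_sum_le (by norm_num) (norm_nonneg _) (bd w f hw hf k)

lemma wc_norm (w : ℕ → ℂ) (f : ℕ → ℕ) (hw : ∀ n, ‖w n‖ ≤ 1) (hf : Set.InjOn f {n | w n ≠ 0}) :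
    ‖wc w f hw hf‖ ≤ 1 := ContinuousLinearMap.opNorm_le_bound _ zero_le_one fun k => by
  rw [one_mul]
  exact lp.norm_le_of_forall_sum_le (by norm_num) (norm_nonneg _) (bd w f hw hf k)

noncomputable def w (n : ℕ) : ℂ := if n % 2 = 0 then (1 / 2) ^ n else 1

lemma w_ne (n : ℕ) : w n ≠ 0 := by unfold w; split_ifs <;> simp

noncomputable def A : L →L[ℂ] L := wc (fun n => if n % 2 = 0 then 0 else 1) (· / 2)
  (fun n => by split_ifs <;> simp) fun a ha b hb h => by
    simp only [Set.mem_ofPred_eq, ne_eq, ite_eq_left_iff, one_ne_zero, imp_false, not_not] at *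
    omega

noncomputable def B : L →L[ℂ] L := wc w (2 * · + 1)
  (fun n => by
    unfold w; split_ifs
    · rw [norm_pow]; exact pow_le_one₀ (norm_nonneg _) (by norm_num)
    · simp) fun a _ b _ h => by simp only at h; omega

noncomputable def C : L →L[ℂ] L := wc (fun n => if n % 2 = 0 then 1 else 0) id
  (fun n => by split_ifs <;> simp) fun _ _ _ _ h => h

lemma A_app (x : L) (n : ℕ) : A x n = (if n % 2 = 0 then 0 else 1) * x (n / 2) := rfl
lemma B_app (x : L) (n : ℕ) : B x n = w n * x (2 * n + 1) := rfl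
lemma C_app (x : L) (n : ℕ) : C x n = (if n % 2 = 0 then 1 else 0) * x n := rfl
lemma A_ev (x : L) (n : ℕ) : A x (2 * n) = 0 := by simp [A_app]
lemma A_od (x : L) (n : ℕ) : A x (2 * n + 1) = x n := by
  rw [A_app, if_neg (by omega), one_mul, show (2 * n + 1) / 2 = n by omega]
lemma C_ev (x : L) (n : ℕ) : C x (2 * n) = x (2 * n) := by simp [C_app]
lemma C_od (x : L) (n : ℕ) : C x (2 * n + 1) = 0 := by rw [C_app, if_neg (by omega), zero_mul]
lemma w_od (n : ℕ) : w (2 * n + 1) = 1 := if_neg (by omega)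

lemma ext2 {x y : L} (h : ∀ n, x (2 * n) = y (2 * n)) (h' : ∀ n, x (2 * n + 1) = y (2 * n + 1)) :
    x = y := by
  ext n
  obtain ⟨m, rfl | rfl⟩ := Nat.even_or_odd' n
  exacts [h m, h' m]

lemma A_inj {x : L} (h : A x = 0) : x = 0 := by
  ext n; rw [← A_od, h]; rfl

noncomputable def O : L →L[ℂ] L := wc (fun _ => 1) (2 * · + 1) (by simp)
  fun a _ b _ h => by simp only at h; omega

lemma rangeA : A.toLinearMap.range = C.toLinearMap.ker := by
  refine le_antisymm ?_ fun x (hx : C x = 0) => ⟨O x, ext2 (fun n => ?_) fun n => ?_⟩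
  · rintro _ ⟨x, rfl⟩
    exact ext2 (fun n => (C_ev _ n).trans (A_ev x n)) fun n => C_od _ n
  · rw [← C_ev x, hx]; exact A_ev _ n
  · exact (A_od _ n).trans (one_mul _)

lemma hS : spS A 1 = C.toLinearMap.ker := by
  rw [spS, pow_one, LinearMap.ker_eq_bot'.2 fun _ => A_inj, sup_bot_eq, rangeA]

lemma coord {V : Submodule ℂ L} {x : L} (hx : x ∈ Vᗮ) {n : ℕ} (h : lp.single 2 n (1 : ℂ) ∈ V) :
    x n = 0 := by
  simpa [lp.inner_single_left] using Submodule.inner_right_of_mem_orthogonal h hx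

lemma hSo (x : L) : x ∈ (spS A 1)ᗮ ↔ ∀ n, x (2 * n + 1) = 0 := by
  rw [hS]
  refine ⟨fun h n => coord h (ext2 (fun m => (C_ev _ m).trans ?_) fun m => C_od _ m),
    fun h s (hs : C s = 0) => ?_⟩
  · exact lp.single_apply_ne _ _ _ (by omega)
  · rw [lp.inner_eq_tsum]
    refine (tsum_congr fun n => ?_).trans tsum_zero
    obtain ⟨m, rfl | rfl⟩ := Nat.even_or_odd' n
    · rw [← C_ev s, hs]; simp
    · rw [h]; simp

lemma B_single (n : ℕ) (c : ℂ) : B (lp.single 2 (2 * n + 1) c) = lp.single 2 n (w n * c) := by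
  ext m
  rw [B_app]
  by_cases h : m = n
  · subst h; simp
  · rw [lp.single_apply_ne _ _ _ h, lp.single_apply_ne _ _ _ (by omega), mul_zero]

lemma B_single' (n : ℕ) (c : ℂ) : B (lp.single 2 (2 * n) c) = 0 := by
  ext m
  rw [B_app, lp.single_apply_ne _ _ _ (by omega), mul_zero]; rfl

lemma hT : spT B 1 = (spS A 1)ᗮ := by
  refine le_antisymm (Submodule.topologicalClosure_minimal _ (fun x hx => (hSo x).2 fun n => ?_)
    (Submodule.isClosed_orthogonal _)) fun x hx => ?_
  · have : B x n = 0 := by rw [show B x = 0 from hx.1]; rfl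
    exact (mul_eq_zero.1 this).resolve_left (w_ne n)
  · refine (Submodule.isClosed_topologicalClosure _).mem_of_tendsto
      (lp.hasSum_single (by norm_num) x) (.of_forall fun s => Submodule.le_topologicalClosure _
        (Submodule.sum_mem _ fun n _ => ?_))
    obtain ⟨m, rfl | rfl⟩ := Nat.even_or_odd' n
    · refine ⟨B_single' _ _, lp.single 2 (2 * (2 * m) + 1) (x (2 * m) / w (2 * m)), ?_⟩
      rw [pow_one]
      exact (B_single _ _).trans (by rw [mul_div_cancel₀ _ (w_ne _)])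
    · rw [(hSo x).1 hx]; simp

lemma inf (V : Submodule ℂ L) (h : ∀ m, ∃ v ∈ V, ∀ j, v (2 * j) = if j = m then 1 else 0) :
    dim V = ⊤ := by
  choose v hv h using h
  let φ : V →ₗ[ℂ] ℕ → ℂ :=
    { toFun := fun x j => x.1 (2 * j), map_add' := fun _ _ => rfl, map_smul' := fun _ _ => rfl }
  have h1 : LinearIndependent ℂ fun m => (⟨v m, hv m⟩ : V) := by
    refine .of_comp φ ?_
    convert Pi.linearIndependent_single_one ℕ ℂ using 1
    funext m j
    rw [Pi.single_apply]; exact h m j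
  exact Cardinal.toENat_eq_top.2 h1.aleph0_le_rank

lemma solve {μ : ℂ} (hμ : ‖μ‖ < 1) (u : L) : ∃ y, y = u + μ • A y := by
  have h : ‖μ • A‖ < 1 := by
    have : ‖A‖ ≤ 1 := wc_norm _ _ _ _
    rw [norm_smul]; exact mul_lt_one_of_nonneg_of_lt_one_left (norm_nonneg _) hμ this
  obtain ⟨y, hy⟩ := (ContinuousLinearMap.isUnit_iff_bijective.1
    (isUnit_one_sub_of_norm_lt_one h)).2 u
  exact ⟨y, by rw [← hy]; simp⟩

lemma ex_u : ∃ u : L, ∀ n, u n = (1 / 2) ^ n := by
  refine ⟨⟨fun n => (1 / 2) ^ n, memℓp_gen ?_⟩, fun _ => rfl⟩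
  refine (summable_geometric_of_lt_one (r := (1 / 2) ^ 2) (by norm_num) (by norm_num)).congr
    fun n => ?_
  rw [norm_pow, ← pow_mul, mul_comm, pow_mul]
  norm_num

theorem result : Counter (lp (fun _ : ℕ => ℂ) 2) := by
  obtain ⟨a, ha, hA⟩ := ex_asc (T := A) (p := 0) fun x h => A_inj (by simpa using h)
  obtain rfl : a = 0 := by omega
  obtain ⟨d, hd, hB⟩ := ex_dsc (T := B) (p := 1) fun x => ⟨A x, by
    rw [pow_app, pow_one]; ext n; rw [B_app, B_app, B_app, A_od, w_od, one_mul]⟩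
  refine ⟨A, B, C, 0, d, 1, hA, ?_, hB, ⟨1, one_pos, fun z _ hz => ?_⟩, le_rfl, by omega, hd,
    ⟨by rw [hS]; exact C.isClosed_ker, (LinearIsometryEquiv.ofEq _ _ hT).toContinuousLinearEquiv,
      fun y => ?_, fun y hy => ?_⟩, ?_⟩
  · rw [zero_add, pow_one, rangeA]; exact C.isClosed_ker
  · rw [inf, inf]
    · intro m
      obtain ⟨y, hy⟩ := solve hz (lp.single 2 (2 * (2 * m) + 1) (z / w (2 * m)))
      have h1 : ∀ j, y (2 * j) = 0 := fun j => by
        rw [hy, lp.coeFn_add, Pi.add_apply, lp.single_apply_ne _ _ _ (by omega), lp.coeFn_smul,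
          Pi.smul_apply, A_ev]; simp
      have h2 : B (A y) = y := ext2 (fun n => by rw [B_app, A_od, h1, mul_zero])
        fun n => by rw [B_app, A_od, w_od, one_mul]
      have h3 : B y = z • (lp.single 2 (2 * m) (1 : ℂ) + y) := by
        rw [congrArg B hy, map_add, map_smul, h2, B_single, mul_div_cancel₀ _ (w_ne _), smul_add,
          ← lp.single_smul, smul_eq_mul, mul_one]
      refine ⟨lp.single 2 (2 * m) (1 : ℂ) + y, ?_, fun j => ?_⟩
      · show B _ - z • _ = 0
        rw [map_add, B_single', h3]; simp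
      · rw [lp.coeFn_add, Pi.add_apply, h1, add_zero, lp.single_apply, Pi.single_apply]; simp
    · intro m
      obtain ⟨y, hy⟩ := solve (μ := conj z) (by simpa using hz) (lp.single 2 (2 * m) 1)
      refine ⟨y, ?_, fun j => ?_⟩
      · rintro _ ⟨u, rfl⟩
        have h1 : ∀ n, y (2 * n + 1) = conj z * y n := fun n => by
          rw [congrArg (fun x : L => x (2 * n + 1)) hy, lp.coeFn_add, Pi.add_apply,
            lp.single_apply_ne _ _ _ (by omega), lp.coeFn_smul, Pi.smul_apply, A_od]; simp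
        show inner ℂ (A u - z • u) y = 0
        rw [inner_sub_left, inner_smul_left, lp.inner_eq_tsum, lp.inner_eq_tsum, ← tsum_mul_left,
          ← Function.Injective.tsum_eq (g := fun n => 2 * n + 1) (fun a b h => by simpa using h)]
        · simp [A_od, h1, mul_assoc]
        · intro n hn
          obtain ⟨m, rfl | rfl⟩ := Nat.even_or_odd' n
          · simp [A_ev] at hn
          · exact ⟨m, rfl⟩
      · rw [hy, lp.coeFn_add, Pi.add_apply, lp.coeFn_smul, Pi.smul_apply, A_ev, lp.single_apply,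
          Pi.single_apply]; simp
  · exact ext2 (C_ev _) fun n => (C_od _ n).trans ((hSo _).1 (hT.le y.2) n).symm
  · refine ext2 (fun n => (C_ev _ n).trans (coord hy ?_)) (C_od _)
    rw [hT, hSo]; exact fun m => lp.single_apply_ne _ _ _ (by omega)
  · rintro ⟨-, k, hk, -⟩
    have hM : Function.Injective (mat A B C) := (injective_iff_map_eq_zero _).2 fun ⟨x, y⟩ h => by
      have h1 : A x + C y = 0 := congrArg Prod.fst h
      have h2 : B y = 0 := congrArg Prod.snd h
      obtain rfl : y = 0 := ext2 (fun n => by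
        simpa [A_ev, C_ev] using congrArg (fun x : L => x (2 * n)) h1) fun n => by
        simpa [B_app, w_ne] using congrArg (fun x : L => x n) h2
      rw [A_inj (x := x) (by simpa using h1)]; rfl
    obtain ⟨u, hu⟩ := ex_u
    obtain ⟨⟨x, y⟩, h⟩ : (mat A B C ^ k) (0, u) ∈ (mat A B C ^ (k + 1)).toLinearMap.range :=
      hk.ge ⟨_, rfl⟩
    have h1 : (mat A B C ^ k) (mat A B C (x, y)) = (mat A B C ^ k) (0, u) := by
      rw [← pow_app']; exact h
    rw [FunLike.coe_pow_eq_iterate] at h1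
    have h2 : B y = u := congrArg Prod.snd (hM.iterate k h1)
    have h3 : ∀ n, y (2 * (2 * n) + 1) = 1 := fun n => by
      have : w (2 * n) * y (2 * (2 * n) + 1) = (1 / 2) ^ (2 * n) := by rw [← B_app, h2, hu]
      rw [show w (2 * n) = (1 / 2) ^ (2 * n) from if_pos (by omega)] at this
      exact (mul_eq_left₀ (by simp)).1 this
    have h4 := ((lp.memℓp y).summable (by norm_num)).comp_injective
      (i := fun n => 2 * (2 * n) + 1) fun a b h => by simpa using h
    simpa [Function.comp_def, h3] using h4.tendsto_atTop_zero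

end Pool.Agent.Results.MP_632fda_an.LeftFails
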