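import Pool.Agent.Lib.helper29.DrazinDefs

namespace Pool.Agent.Results.MP_632fda_an.RightWeak

open Pool.Agent.Lib.H29.Drazin

variable {X H K : Type*} [NormedAddCommGroup X] [NormedSpace ℂ X]
  [NormedAddCommGroup H] [InnerProductSpace ℂ H] [NormedAddCommGroup K] [InnerProductSpace ℂ K]

lemma asc_ker {T : X →L[ℂ] X} {a p : ℕ} (h : IsAsc T a) (hp : a ≤ p) (m : ℕ) (x : X)
    (hx : (T ^ m) x = 0) : (T ^ p) x = 0 := by
  have h1 : ∀ m x, (T ^ m) x = 0 → (T ^ a) x = 0 := by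
    intro m
    induction m with
    | zero => intro x hx; rw [show x = 0 from hx, map_zero]
    | succ m ih =>
      intro x hx
      have h2 : x ∈ (T ^ (a + 1)).toLinearMap.ker := by
        show (T ^ (a + 1)) x = 0
        rw [pow_app']; exact ih _ (by rwa [← pow_app'])
      rw [h.1] at h2; exact h2
  obtain ⟨j, rfl⟩ := Nat.exists_eq_add_of_le' hp
  rw [pow_add, mul_apply_eq_comp, h1 m x hx, map_zero]

lemma dsc_range {T : X →L[ℂ] X} {d p : ℕ} (h : IsDsc T d) (hp : d ≤ p) :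
    (T ^ p).toLinearMap.range = (T ^ d).toLinearMap.range := by
  induction p, hp using Nat.le_induction with
  | base => rfl
  | succ p _ ih =>
    rw [← h.1]
    have e : ∀ n, (T ^ (n + 1)).toLinearMap.range = ((T ^ n).toLinearMap.range).map T.toLinearMap :=
      fun n => by rw [← LinearMap.range_comp, pow_succ']; rfl
    rw [e, e, ih]

theorem result {H K : Type} [NormedAddCommGroup H] [InnerProductSpace ℂ H] [CompleteSpace H]
    [NormedAddCommGroup K] [InnerProductSpace ℂ K] [CompleteSpace K]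
    (A : H →L[ℂ] H) (B : K →L[ℂ] K) (C : K →L[ℂ] H) (a d p : ℕ) (hA : IsAsc A a)
    (hB : IsDsc B d) (hc : IsClosed ((B ^ d).toLinearMap.range : Set K))
    (hp : 1 ≤ p) (ha : a ≤ p) (hd : d ≤ p) (hC : Admissible A B p C) :
    IsDrazin (mat A B C) ∧ (∃ k ≤ p, IsAsc (mat A B C) k) ∧ ∃ k ≤ p, IsDsc (mat A B C) k := by
  obtain ⟨hS, J, hJ, hJ0⟩ := hC
  set M := mat A B C with hM
  have hR := dsc_range hB hd
  have hR' := (dsc_range hB (hd.trans p.le_succ)).trans hR.symm
  have hT : spT B p = B.toLinearMap.ker ⊓ (B ^ p).toLinearMap.range :=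
    IsClosed.submodule_topologicalClosure_eq (B.isClosed_ker.inter (by rw [hR]; exact hc))
  have : CompleteSpace (spT B p) := (Submodule.isClosed_topologicalClosure _).completeSpace_coe
  have : CompleteSpace (spS A p) := hS.completeSpace_coe
  have hdec : ∀ y, ∃ t ∈ spT B p, C (y - t) = 0 := fun y => by
    obtain ⟨t, ht, u, hu, rfl⟩ := (spT B p).exists_add_mem_mem_orthogonal y
    exact ⟨t, ht, by simpa using hJ0 u hu⟩
  have hCS : ∀ y, C y ∈ spS A p → C y = 0 := fun y hy => by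
    obtain ⟨t, ht, h⟩ := hdec y
    rw [map_sub, sub_eq_zero, hJ ⟨t, ht⟩] at h
    exact inner_self_eq_zero.1 (Submodule.inner_right_of_mem_orthogonal hy (h ▸ (J ⟨t, ht⟩).2))
  have hsplit : ∀ m x y, (A ^ m) (A x + C y) = 0 → C y = 0 := fun m x y h =>
    hCS y ((Submodule.add_mem_iff_right _ (Submodule.mem_sup_left (LinearMap.mem_range_self _ x))).1
      (Submodule.mem_sup_right (asc_ker hA ha m _ h)))
  have h2 : ∀ n u v, ((M ^ n) (u, v)).2 = (B ^ n) v := fun n u v => by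
    induction n with
    | zero => rfl
    | succ n ih => rw [pow_app, pow_app, ← ih]; rfl
  have h1 : ∀ u v n m, (A ^ m) ((M ^ n) (u, v)).1 = 0 → ((M ^ n) (u, v)).1 = (A ^ n) u := by
    intro u v n
    induction n with
    | zero => intro _ _; rfl
    | succ n ih =>
      intro m hm
      have e : ((M ^ (n + 1)) (u, v)).1 = A ((M ^ n) (u, v)).1 + C ((M ^ n) (u, v)).2 := by
        rw [pow_app]; rfl
      rw [e] at hm ⊢
      have e' := hsplit m _ _ hm
      rw [e', add_zero] at hm ⊢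
      rw [ih (m + 1) (by rwa [pow_app']), pow_app]
  have asc : ∃ k ≤ p, IsAsc M k := ex_asc fun ⟨u, v⟩ h => by
    rw [pow_app] at h
    have e1 : A ((M ^ p) (u, v)).1 + C ((M ^ p) (u, v)).2 = 0 := congrArg Prod.fst h
    have e2 : B ((M ^ p) (u, v)).2 = 0 := congrArg Prod.snd h
    have e3 := hsplit 0 _ _ e1
    rw [e3, add_zero] at e1
    have e4 := h1 u v p 1 (by rwa [pow_one])
    have e5 : ((M ^ p) (u, v)).2 ∈ spT B p := by rw [hT]; exact ⟨e2, v, (h2 p u v).symm⟩
    refine Prod.ext (e4.trans (asc_ker hA ha (p + 1) u (by rw [pow_app, ← e4, e1]))) ?_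
    have e6 : J ⟨_, e5⟩ = 0 := Subtype.ext ((hJ ⟨_, e5⟩).symm.trans e3)
    exact congrArg Subtype.val (J.map_eq_zero_iff.1 e6)
  have h3 : ∀ i n, (B ^ i) n = 0 → ∃ r ∈ (B ^ p).toLinearMap.range, (M ^ i) (0, n - r) = 0 := by
    intro i
    induction i with
    | zero => intro n hn; exact ⟨0, zero_mem _, by rw [show n = 0 from hn]; simp⟩
    | succ i ih =>
      intro n hn
      obtain ⟨r, hr, h⟩ := ih (B n) (by rwa [← pow_app'])
      rw [← hR'] at hr
      obtain ⟨w, rfl⟩ := hr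
      obtain ⟨t, ht, h'⟩ := hdec (n - (B ^ p) w)
      rw [hT] at ht
      refine ⟨(B ^ p) w + t, add_mem ⟨w, rfl⟩ ht.2, ?_⟩
      rw [pow_app', hM, mat_apply, ← sub_sub, h', map_sub, show B t = 0 from ht.1, map_sub,
        ← pow_app, map_zero, add_zero, sub_zero]
      exact h
  have h4 : ∀ x, ∃ y, (M ^ (p + 1)) y = (M ^ p) (x, 0) := fun x => by
    obtain ⟨s, hs, u, hu, rfl⟩ := (spS A p).exists_add_mem_mem_orthogonal x
    obtain ⟨_, ⟨b, rfl⟩, n, hn, rfl⟩ := Submodule.mem_sup.1 hs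
    obtain ⟨t, ht⟩ := J.surjective ⟨u, hu⟩
    have e1 : C t = u := (hJ t).trans (congrArg Subtype.val ht)
    have e2 : B t = 0 := (hT.le t.2).1
    have e3 : ∀ j, (M ^ j) (n, 0) = ((A ^ j) n, 0) := fun j => by
      induction j with
      | zero => rfl
      | succ j ih => rw [pow_app, pow_app, ih]; simp [hM]
    refine ⟨(b, t), ?_⟩
    have e4 : ((A.toLinearMap b + n + u, 0) : H × K) = M (b, t) + (n, 0) := by
      simp [hM, e1, e2, add_right_comm]
    rw [e4, map_add, e3, show (A ^ p) n = 0 from hn, pow_app']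
    simp
  have dsc : ∃ k ≤ p, IsDsc M k := ex_dsc fun ⟨x, y⟩ => by
    obtain ⟨k, hk⟩ : (B ^ p) y ∈ (B ^ (p + 1)).toLinearMap.range := hR'.ge ⟨y, rfl⟩
    have hk' : (B ^ p) (B k) = (B ^ p) y := by rw [← pow_app']; exact hk
    obtain ⟨_, ⟨w, rfl⟩, h⟩ := h3 p (y - B k) (by rw [map_sub, hk', sub_self])
    obtain ⟨q, rfl⟩ := Nat.exists_eq_add_of_le' hp
    obtain ⟨z, hz⟩ := h4 (x - C (k + (B ^ q) w))
    refine ⟨z + (0, k + (B ^ q) w), ?_⟩
    have e : ((x, y) : H × K) = (x - C (k + (B ^ q) w), 0) + M (0, k + (B ^ q) w)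
        + (0, y - B k - (B ^ (q + 1)).toLinearMap w) := by
      rw [show (B ^ (q + 1)).toLinearMap w = B ((B ^ q) w) from pow_app B q w]
      generalize (B ^ q) w = w'
      simp [hM]
    rw [e, map_add, map_add, map_add, h, hz, add_zero, ← pow_app']
  exact ⟨⟨asc.imp fun _ h => h.2, dsc.imp fun _ h => h.2⟩, asc, dsc⟩

end Pool.Agent.Results.MP_632fda_an.RightWeak
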